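import Mathlib

/-! The normalisation of an affine domain is an affine domain. -/

namespace Pool.Agent.MP_ee8c61_ag.N3Nm

open scoped nonZeroDivisors in
theorem fin_gen (A R E : Type) [CommRing A] [IsDomain A] [IsIntegrallyClosed A]
    [IsNoetherianRing A] [CharZero A] [CommRing R] [IsDomain R] [Algebra A R] [FaithfulSMul A R]
    [Module.Finite A R] [Field E] [Algebra R E] [IsFractionRing R E] :
    Module.Finite R (integralClosure R E) := by
  let _ : Algebra A E := ((algebraMap R E).comp (algebraMap A R)).toAlgebra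
  have : IsScalarTower A R E := .of_algebraMap_eq fun _ => rfl
  have : FaithfulSMul A E := (faithfulSMul_iff_algebraMap_injective A E).2
    ((IsFractionRing.injective R E).comp (FaithfulSMul.algebraMap_injective A R))
  let _ : Algebra (FractionRing A) E := FractionRing.liftAlgebra A E
  have : FiniteDimensional (FractionRing A) E := .of_isLocalization A R A⁰
  have : IsIntegralClosure (integralClosure R E) A E := ⟨Subtype.val_injective, fun {x} =>
    ⟨fun h => ⟨⟨x, h.tower_top⟩, rfl⟩, fun ⟨y, e⟩ => e ▸ isIntegral_trans (A := R) _ y.2⟩⟩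
  have := IsIntegralClosure.finite A (FractionRing A) E (integralClosure R E)
  exact .of_restrictScalars_finite A _ _

variable {K : Type} [Field K] [Algebra ℂ K]

theorem int_iff (A : Subalgebra ℂ K) (g : K) :
    IsIntegral A g ↔ ∀ V : ValuationSubring K, (∀ a ∈ A, a ∈ V) → g ∈ V := by
  have h : g ∈ (integralClosure (Subring.closure (A.toSubring : Set K)) K).toSubring ↔
      ∀ V : ValuationSubring K, (∀ a ∈ A, a ∈ V) → g ∈ V := by
    rw [← iInf_valuationSubring_superset, Subring.mem_iInf]
    exact ⟨fun h V hV => h ⟨V, hV⟩, fun h V => h V.1 V.2⟩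
  rw [Subring.closure_eq] at h
  exact h

/-- The intersection of all valuation rings that contain `A` is the image of a polynomial ring. -/
theorem norm_fg (A : Subalgebra ℂ K) (hA : A.FG) (hf : ∀ g : K, ∃ s ∈ A, s ≠ 0 ∧ s * g ∈ A) :
    ∃ (m : ℕ) (j : MvPolynomial (Fin m) ℂ →ₐ[ℂ] K),
      ∀ g, g ∈ j.range ↔ ∀ V : ValuationSubring K, (∀ a ∈ A, a ∈ V) → g ∈ V := by
  have : Algebra.FiniteType ℂ A := (Subalgebra.fg_iff_finiteType _).1 hA
  have : IsFractionRing A K := IsFractionRing.of_field _ _ fun g => by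
    obtain ⟨s, hs, h0, h1⟩ := hf g
    exact ⟨⟨_, h1⟩, ⟨s, hs⟩, (mul_div_cancel_left₀ g h0).symm⟩
  obtain ⟨s, φ, g1, g2⟩ := exists_finite_inj_algHom_of_fg ℂ A
  have : Module.Finite A (integralClosure A K) := by
    let _ := φ.toRingHom.toAlgebra
    have : Module.Finite (MvPolynomial (Fin s) ℂ) A := g2
    have := (faithfulSMul_iff_algebraMap_injective (MvPolynomial (Fin s) ℂ) _).2 g1
    exact fin_gen (MvPolynomial (Fin s) ℂ) A K
  have : Algebra.FiniteType ℂ (integralClosure A K) := .trans (S := A) inferInstance inferInstance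
  obtain ⟨m, j, hj⟩ := Algebra.FiniteType.iff_quotient_mvPolynomial''.1 this
  refine ⟨m, ((integralClosure A K).val.restrictScalars ℂ).comp j, fun g => ?_⟩
  rw [← int_iff]
  refine ⟨?_, fun h => ?_⟩
  · rintro ⟨p, rfl⟩
    exact (j p).2
  · obtain ⟨p, hp⟩ := hj ⟨g, h⟩
    exact ⟨p, congrArg Subtype.val hp⟩

end Pool.Agent.MP_ee8c61_ag.N3Nm
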